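import Pool.Agent.U215.AC.Main

/-!
# The growth of the constant
-/

set_option autoImplicit false

namespace Pool.Agent.U215.AC

open Filter Real

theorem log_K_le {w : ℕ} (hw : 1 ≤ w) :
    Real.log (K w) ≤ Real.log 24 + (5 * (Nat.sqrt (2 * w) : ℝ) + 7) * Real.log w := by
  have hw' : (1 : ℝ) ≤ w := by exact_mod_cast hw
  have hw0 : (0 : ℝ) < w := by linarith
  have h1 : (K w : ℝ) ≤ 24 * (w : ℝ) ^ (5 * Nat.sqrt (2 * w) + 7) := by
    unfold K T
    push_cast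
    have h2 : ((w : ℝ) ^ (Nat.sqrt (2 * w) + 1)) ^ 5 = (w : ℝ) ^ (5 * Nat.sqrt (2 * w) + 5) := by
      rw [← pow_mul]; congr 1; ring
    rw [h2]
    have h3 : (w : ℝ) ^ 2 + 1 ≤ 2 * (w : ℝ) ^ 2 := by nlinarith
    calc 12 * ((w : ℝ) ^ (5 * Nat.sqrt (2 * w) + 5) * ((w : ℝ) ^ 2 + 1))
        ≤ 12 * ((w : ℝ) ^ (5 * Nat.sqrt (2 * w) + 5) * (2 * (w : ℝ) ^ 2)) := by gcongr
      _ = 24 * (w : ℝ) ^ (5 * Nat.sqrt (2 * w) + 7) := by ring
  have hK0 : (0 : ℝ) < K w := by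
    unfold K T
    positivity
  calc Real.log (K w) ≤ Real.log (24 * (w : ℝ) ^ (5 * Nat.sqrt (2 * w) + 7)) :=
        Real.log_le_log hK0 h1
    _ = _ := by
      rw [Real.log_mul (by norm_num) (by positivity), Real.log_pow]
      push_cast
      ring

theorem K_le_rpow {δ : ℝ} (hδ : 0 < δ) (hδ1 : δ < 1) :
    ∀ᶠ m : ℕ in atTop, ∀ w : ℕ, 1 ≤ w →
      (w : ℝ) ≤ δ ^ 2 / 3200 * (Real.log m / Real.log (Real.log m)) ^ 2 →
        (K w : ℝ) ≤ (m : ℝ) ^ (δ / 2) := by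
  have hcast : Tendsto (fun m : ℕ => (m : ℝ)) atTop atTop := tendsto_natCast_atTop_atTop
  have hL : Tendsto (fun m : ℕ => Real.log (m : ℝ)) atTop atTop :=
    Real.tendsto_log_atTop.comp hcast
  have hLL : Tendsto (fun m : ℕ => Real.log (Real.log (m : ℝ))) atTop atTop :=
    Real.tendsto_log_atTop.comp hL
  have hlit : ∀ᶠ m : ℕ in atTop,
      14 * Real.log (Real.log (m : ℝ)) ≤ δ / 8 * Real.log (m : ℝ) := by
    have h1 : ∀ᶠ x : ℝ in atTop, ‖Real.log x‖ ≤ δ / 112 * ‖id x‖ :=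
      Real.isLittleO_log_id_atTop.bound (by positivity)
    filter_upwards [hL.eventually h1, hL.eventually_ge_atTop 1] with m h h2
    have h3 := (Real.le_norm_self _).trans h
    simp only [id, Real.norm_eq_abs] at h3
    rw [abs_of_nonneg (by linarith : (0 : ℝ) ≤ Real.log (m : ℝ))] at h3
    linarith
  filter_upwards [hlit, hL.eventually_ge_atTop 1, hLL.eventually_ge_atTop 1,
    hL.eventually_ge_atTop (8 / δ * Real.log 24), eventually_ge_atTop 1] with m h1 h2 h3 h4 h5 w hw hwc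
  have hm0 : (0 : ℝ) < m := by exact_mod_cast h5
  obtain ⟨L, hLdef⟩ : ∃ L, L = Real.log (m : ℝ) := ⟨_, rfl⟩
  obtain ⟨M, hMdef⟩ : ∃ M, M = Real.log L := ⟨_, rfl⟩
  rw [← hLdef] at h1 h2 h3 h4 hwc
  rw [← hMdef] at h1 h3 hwc
  have hw' : (1 : ℝ) ≤ w := by exact_mod_cast hw
  have hX0 : 0 < L / M := by positivity
  -- the logarithm of `w`
  have hlogw : Real.log w ≤ 2 * M := by
    have h6 : (w : ℝ) ≤ L ^ 2 := by
      refine hwc.trans ?_
      have h7 : L / M ≤ L := div_le_self (by linarith) h3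
      have h8 : δ ^ 2 / 3200 ≤ 1 := by nlinarith
      calc δ ^ 2 / 3200 * (L / M) ^ 2 ≤ 1 * L ^ 2 := by gcongr
        _ = L ^ 2 := one_mul _
    calc Real.log w ≤ Real.log (L ^ 2) := Real.log_le_log (by linarith) h6
      _ = 2 * M := by rw [Real.log_pow, hMdef]; norm_num
  have hlogw0 : 0 ≤ Real.log w := Real.log_nonneg hw'
  -- the root
  have hs : (Nat.sqrt (2 * w) : ℝ) ≤ δ / 40 * (L / M) := by
    have h6 : (Nat.sqrt (2 * w) : ℝ) ^ 2 ≤ (δ / 40 * (L / M)) ^ 2 := by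
      have h7 : ((Nat.sqrt (2 * w) ^ 2 : ℕ) : ℝ) ≤ ((2 * w : ℕ) : ℝ) := by
        exact_mod_cast Nat.sqrt_le' (2 * w)
      push_cast at h7
      calc (Nat.sqrt (2 * w) : ℝ) ^ 2 ≤ 2 * w := h7
        _ ≤ 2 * (δ ^ 2 / 3200 * (L / M) ^ 2) := by linarith
        _ = (δ / 40 * (L / M)) ^ 2 := by ring
    exact (pow_le_pow_iff_left₀ (by positivity) (by positivity) two_ne_zero).1 h6
  have hmain : Real.log (K w) ≤ δ / 2 * L := by
    refine (log_K_le hw).trans ?_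
    have h6 : (Nat.sqrt (2 * w) : ℝ) * Real.log w ≤ δ / 20 * L := by
      calc (Nat.sqrt (2 * w) : ℝ) * Real.log w ≤ (δ / 40 * (L / M)) * (2 * M) := by gcongr
        _ = δ / 20 * L := by field_simp; ring
    have h7 : Real.log 24 ≤ δ / 8 * L := by
      have h8 : δ / 8 * (8 / δ * Real.log 24) ≤ δ / 8 * L := by gcongr
      have h9 : δ / 8 * (8 / δ * Real.log 24) = Real.log 24 := by field_simp
      linarith
    nlinarith
  have hK0 : (0 : ℝ) < K w := by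
    have : (0 : ℝ) < w := by linarith
    unfold K T
    push_cast
    positivity
  rw [← Real.exp_log hK0, Real.rpow_def_of_pos hm0, ← hLdef]
  exact Real.exp_le_exp.2 (by linarith)

/-- The exponent of the homogeneous sets is at least `m ^ (1 - δ)`. -/
theorem div_K_ge {δ : ℝ} (hδ : 0 < δ) (hδ1 : δ < 1) :
    ∀ᶠ m : ℕ in atTop, ∀ w : ℕ, 1 ≤ w →
      (w : ℝ) ≤ δ ^ 2 / 3200 * (Real.log m / Real.log (Real.log m)) ^ 2 →
        (m : ℝ) ^ (1 - δ) ≤ ((m / K w : ℕ) : ℝ) := by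
  have hcast : Tendsto (fun m : ℕ => (m : ℝ)) atTop atTop := tendsto_natCast_atTop_atTop
  have hpow : ∀ᶠ m : ℕ in atTop, (2 : ℝ) ≤ (m : ℝ) ^ (δ / 2) :=
    ((tendsto_rpow_atTop (by positivity : 0 < δ / 2)).comp hcast).eventually_ge_atTop 2
  filter_upwards [K_le_rpow hδ hδ1, hpow, eventually_ge_atTop 1] with m h1 h2 h3 w hw hwc
  have hm1 : (1 : ℝ) ≤ m := by exact_mod_cast h3
  have hm0 : (0 : ℝ) < m := by linarith
  have hK := h1 w hw hwc
  have hKpos : 0 < K w := by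
    unfold K T
    positivity
  have hKpos' : (0 : ℝ) < K w := by exact_mod_cast hKpos
  have h4 : (m : ℝ) / K w < ((m / K w : ℕ) : ℝ) + 1 := by
    rw [div_lt_iff₀ hKpos']
    have := Nat.lt_div_mul_add (a := m) hKpos
    have h5 : (m : ℝ) < ((m / K w * K w + K w : ℕ) : ℝ) := by exact_mod_cast this
    push_cast at h5 ⊢
    linarith
  have h5 : 2 * (m : ℝ) ^ (1 - δ) ≤ (m : ℝ) / K w := by
    rw [le_div_iff₀ hKpos']
    calc 2 * (m : ℝ) ^ (1 - δ) * K w ≤ (m : ℝ) ^ (δ / 2) * (m : ℝ) ^ (1 - δ) * (m : ℝ) ^ (δ / 2) := by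
          gcongr
      _ = m := by
        rw [← Real.rpow_add hm0, ← Real.rpow_add hm0]
        have : δ / 2 + (1 - δ) + δ / 2 = 1 := by ring
        rw [this, Real.rpow_one]
  have h6 : (1 : ℝ) ≤ (m : ℝ) ^ (1 - δ) := Real.one_le_rpow hm1 (by linarith)
  linarith

end Pool.Agent.U215.AC
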