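import Pool.Agent.U215.AC.Words

/-!
# The code words
-/

set_option autoImplicit false

namespace Pool.Agent.U215.AC

/-! ### Lexicographic comparison -/

section order

variable {α : Type*} [LinearOrder α]

theorem append_lt_append {a b : List α} (hl : a.length = b.length) (hab : a < b) (s t : List α) :
    a ++ s < b ++ t := by
  induction a generalizing b with
  | nil =>
    cases b with
    | nil => exact absurd hab (lt_irrefl _)
    | cons y b => simp at hl
  | cons x a ih =>
    cases b with
    | nil => simp at hl
    | cons y b =>
      rw [List.cons_append, List.cons_append, List.cons_lt_cons_iff]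
      rw [List.cons_lt_cons_iff] at hab
      rcases hab with h | ⟨h, h'⟩
      · exact Or.inl h
      · exact Or.inr ⟨h, ih (by simpa using hl) h'⟩

theorem append_left_lt' {s t : List α} (a : List α) (hst : s < t) : a ++ s < a ++ t := by
  induction a with
  | nil => exact hst
  | cons x a ih =>
    rw [List.cons_append, List.cons_append, List.cons_lt_cons_iff]
    exact Or.inr ⟨rfl, ih⟩

theorem rep_lt_rep {a b : List α} (hl : a.length = b.length) (hab : a < b) {p : ℕ} (hp : 0 < p) :
    rep p a < rep p b := by
  obtain ⟨q, rfl⟩ : ∃ q, p = q + 1 := ⟨p - 1, by omega⟩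
  rw [rep_succ, rep_succ]
  exact append_lt_append hl hab _ _

end order

/-! ### Monoid identities -/

section mon

variable {M : Type*} [Monoid M]

theorem mul_pow_swap (F F' : M) (n : ℕ) : F * (F' * F) ^ n = (F * F') ^ n * F := by
  induction n with
  | zero => simp
  | succ n ih =>
    rw [pow_succ', ← mul_assoc, ← mul_assoc, mul_assoc (F * F'), ih, ← mul_assoc, ← pow_succ']

/-- sandwich -/
theorem sandwich {F F' : M} (hF : F * F = F) (hF' : F' * F' = F') (n : ℕ) :
    F * F' * (F' * F) ^ (n + 1) * (F * F') = (F * F') ^ (n + 2) := by
  have h1 : F' * (F' * F) ^ (n + 1) = (F' * F) ^ (n + 1) := by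
    rw [pow_succ', ← mul_assoc, ← mul_assoc, hF']
  have h2 : (F' * F) ^ (n + 1) * F = (F' * F) ^ (n + 1) := by
    rw [pow_succ, mul_assoc, mul_assoc, hF]
  calc F * F' * (F' * F) ^ (n + 1) * (F * F')
      = F * (F' * (F' * F) ^ (n + 1)) * (F * F') := by rw [mul_assoc F F']
    _ = F * ((F' * F) ^ (n + 1) * F) * F' := by rw [h1]; simp only [mul_assoc]
    _ = F * (F' * F) ^ (n + 1) * F' := by rw [h2]
    _ = (F * F') ^ (n + 1) * F * F' := by rw [mul_pow_swap]
    _ = (F * F') ^ (n + 2) := by rw [mul_assoc, ← pow_succ]

theorem idem_pow {e : M} (he : e * e = e) (n : ℕ) : e ^ (n + 1) = e := by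
  induction n with
  | zero => simp
  | succ n ih => rw [pow_succ, ih, he]

end mon

/-! ### The code words -/

/-- Two words of the same length with the products `E`, `E`, `F`, `F'`. -/
structure Good {α M : Type*} [Monoid M] (h : α → α → M) (A B : List α) (E F F' : M) : Prop where
  len : A.length = B.length
  AA : ph h A A = E
  BB : ph h B B = E
  AB : ph h A B = F
  BA : ph h B A = F'
  EE : E * E = E
  EF : E * F = F
  FE : F * E = F
  EG : E * F' = F'
  GE : F' * E = F'
  FF : F * F = F
  GG : F' * F' = F'

section code

variable {α M : Type*} [Monoid M] {h : α → α → M} {A B : List α} {E F F' : M}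

/-- the word of a letter -/
def W (A B : List α) : Bool → List α
  | false => A ++ B
  | true => B ++ A

/-- the palindrome of words -/
def Z (A B : List α) : List Bool → List α
  | [] => []
  | b :: x => W A B b ++ (Z A B x ++ W A B b)

theorem W_length (hl : A.length = B.length) (b : Bool) : (W A B b).length = 2 * A.length := by
  cases b <;> simp only [W, List.length_append, hl] <;> ring

theorem Z_length (hl : A.length = B.length) (x : List Bool) :
    (Z A B x).length = 4 * x.length * A.length := by
  induction x with
  | nil => simp [Z]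
  | cons b x ih =>
    rw [Z, List.length_append, List.length_append, ih, W_length hl, List.length_cons]
    ring

/-- The product for a pair of letters. -/
theorem ph_W (g : Good h A B E F F') (b b' : Bool) : ph h (W A B b) (W A B b') =
    if b = b' then E else if b = false then F * F' else F' * F := by
  have e1 := ph_append h g.len B A
  have e2 := ph_append h g.len.symm A B
  have e3 := ph_append h (rfl : A.length = A.length) B B
  have e4 := ph_append h (rfl : B.length = B.length) A A
  cases b <;> cases b' <;> simp only [W]
  · rw [e3, g.AA, g.BB, g.EE]; simp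
  · rw [e1, g.AB, g.BA]; simp
  · rw [e2, g.AB, g.BA]; simp
  · rw [e4, g.AA, g.BB, g.EE]; simp

theorem ph_Z_cons (hl : A.length = B.length) {x y : List Bool} (hxy : x.length = y.length)
    (b b' : Bool) : ph h (Z A B (b :: x)) (Z A B (b' :: y)) =
      ph h (W A B b) (W A B b') * (ph h (Z A B x) (Z A B y) * ph h (W A B b) (W A B b')) := by
  rw [Z, Z, ph_append h (by rw [W_length hl, W_length hl]),
    ph_append h (by rw [Z_length hl, Z_length hl, hxy])]

theorem ph_Z_self (g : Good h A B E F F') (x : List Bool) :
    ph h (Z A B x) (Z A B x) = 1 ∨ ph h (Z A B x) (Z A B x) = E := by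
  induction x with
  | nil => exact Or.inl rfl
  | cons b x ih =>
    right
    rw [ph_Z_cons g.len rfl, ph_W g, if_pos rfl]
    rcases ih with h1 | h1
    · rw [h1, one_mul, g.EE]
    · rw [h1, g.EE, g.EE]

theorem E_mul_pow (hEF : E * F = F) (n : ℕ) : E * (F * F') ^ (n + 1) = (F * F') ^ (n + 1) := by
  rw [pow_succ', ← mul_assoc, ← mul_assoc, hEF]

theorem pow_mul_E (hGE : F' * E = F') (n : ℕ) : (F * F') ^ (n + 1) * E = (F * F') ^ (n + 1) := by
  rw [pow_succ, mul_assoc, mul_assoc, hGE]

/-- the outermost difference decides -/
theorem ph_Z (g : Good h A B E F F') : ∀ x y : List Bool, x.length = y.length → x ≠ y →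
    (x < y ∧ ∃ j : ℕ, ph h (Z A B x) (Z A B y) = (F * F') ^ (j + 1)) ∨
    (y < x ∧ ∃ j : ℕ, ph h (Z A B x) (Z A B y) = (F' * F) ^ (j + 1)) := by
  intro x
  induction x with
  | nil =>
    intro y hl hne
    cases y with
    | nil => exact absurd rfl hne
    | cons b y => simp at hl
  | cons b x ih =>
    intro y hl hne
    cases y with
    | nil => simp at hl
    | cons b' y =>
      have hl' : x.length = y.length := by simpa using hl
      rw [ph_Z_cons g.len hl', ph_W g]
      by_cases hb : b = b'
      · subst hb
        have hne' : x ≠ y := fun h' => hne (by rw [h'])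
        rw [if_pos rfl]
        rcases ih y hl' hne' with ⟨h1, j, h2⟩ | ⟨h1, j, h2⟩
        · left
          refine ⟨by rw [List.cons_lt_cons_iff]; exact Or.inr ⟨rfl, h1⟩, j, ?_⟩
          rw [h2, pow_mul_E g.GE, E_mul_pow g.EF]
        · right
          refine ⟨by rw [List.cons_lt_cons_iff]; exact Or.inr ⟨rfl, h1⟩, j, ?_⟩
          rw [h2, pow_mul_E g.FE, E_mul_pow g.EG]
      · rw [if_neg hb]
        -- the values of the middle part
        have hmid : ph h (Z A B x) (Z A B y) = 1 ∨ ph h (Z A B x) (Z A B y) = E ∨
            (∃ j : ℕ, ph h (Z A B x) (Z A B y) = (F * F') ^ (j + 1)) ∨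
            ∃ j : ℕ, ph h (Z A B x) (Z A B y) = (F' * F) ^ (j + 1) := by
          by_cases hxy : x = y
          · subst hxy
            rcases ph_Z_self g x with h1 | h1
            · exact Or.inl h1
            · exact Or.inr (Or.inl h1)
          · rcases ih y hl' hxy with ⟨_, h2⟩ | ⟨_, h2⟩
            · exact Or.inr (Or.inr (Or.inl h2))
            · exact Or.inr (Or.inr (Or.inr h2))
        generalize ph h (Z A B x) (Z A B y) = X at hmid
        cases b with
        | false =>
          cases b' with
          | false => exact absurd rfl hb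
          | true =>
            left
            refine ⟨by rw [List.cons_lt_cons_iff]; exact Or.inl (by decide), ?_⟩
            rw [if_pos rfl]
            rcases hmid with h1 | h1 | ⟨j, h1⟩ | ⟨j, h1⟩
            · exact ⟨1, by rw [h1, one_mul, pow_succ, pow_one]⟩
            · refine ⟨1, ?_⟩
              rw [h1, ← mul_assoc E F F', g.EF, pow_succ, pow_one]
            · exact ⟨j + 2, by rw [h1, ← pow_succ, ← pow_succ']⟩
            · refine ⟨j + 1, ?_⟩
              rw [h1, ← mul_assoc]
              exact sandwich g.FF g.GG j
        | true =>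
          cases b' with
          | true => exact absurd rfl hb
          | false =>
            right
            refine ⟨by rw [List.cons_lt_cons_iff]; exact Or.inl (by decide), ?_⟩
            rw [if_neg (by decide)]
            rcases hmid with h1 | h1 | ⟨j, h1⟩ | ⟨j, h1⟩
            · exact ⟨1, by rw [h1, one_mul, pow_succ, pow_one]⟩
            · refine ⟨1, ?_⟩
              rw [h1, ← mul_assoc E F' F, g.EG, pow_succ, pow_one]
            · refine ⟨j + 1, ?_⟩
              rw [h1, ← mul_assoc]
              exact sandwich g.GG g.FF j
            · exact ⟨j + 2, by rw [h1, ← pow_succ, ← pow_succ']⟩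

/-- After the repetition the product is constant. -/
theorem ph_rep_Z (g : Good h A B E F F') {p : ℕ}
    (hp : (F * F') ^ p * (F * F') ^ p = (F * F') ^ p) {x y : List Bool} (hl : x.length = y.length)
    (hxy : x < y) : ph h (rep p (Z A B x)) (rep p (Z A B y)) = (F * F') ^ p := by
  rw [ph_rep h (by rw [Z_length g.len, Z_length g.len, hl])]
  rcases ph_Z g x y hl hxy.ne with ⟨_, j, h2⟩ | ⟨h1, _⟩
  · rw [h2, ← pow_mul, mul_comm, pow_mul]
    exact idem_pow hp j
  · exact absurd h1 (lt_asymm hxy)

end code

section order2

variable {α : Type*} [LinearOrder α] {A B : List α}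

theorem Z_lt (hl : A.length = B.length) (hAB : A < B) : ∀ x y : List Bool, x.length = y.length →
    x < y → Z A B x < Z A B y := by
  intro x
  induction x with
  | nil =>
    intro y hxy h
    cases y with
    | nil => exact absurd h (lt_irrefl _)
    | cons b y => simp at hxy
  | cons b x ih =>
    intro y hxy h
    cases y with
    | nil => simp at hxy
    | cons b' y =>
      have hxy' : x.length = y.length := by simpa using hxy
      rw [List.cons_lt_cons_iff] at h
      rw [Z, Z]
      rcases h with h | ⟨h, h'⟩
      · have h1 : b = false ∧ b' = true := by revert h; cases b <;> cases b' <;> decide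
        obtain ⟨rfl, rfl⟩ := h1
        refine append_lt_append (by rw [W_length hl, W_length hl]) ?_ _ _
        exact append_lt_append hl hAB _ _
      · subst h
        refine append_left_lt' _ ?_
        exact append_lt_append (by rw [Z_length hl, Z_length hl, hxy']) (ih y hxy' h') _ _

end order2

end Pool.Agent.U215.AC
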