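import Mathlib

/-!
# Sets of words with few Hamming distances

The polynomial method for Hamming distances: if all distances between different elements of a set of
binary words of length `k` lie, as elements of a field, in a set of `s` elements that does not contain
`0`, then the set has at most `(k + 1) ^ s` elements.
-/

set_option autoImplicit false

namespace Pool.Agent.U215.AC

/-- the Hamming distance of the words `x`, `y` on the first `k` positions -/
def dist (k : ℕ) (x y : List Bool) : ℕ :=
  ∑ i ∈ Finset.range k, if x.getD i false = y.getD i false then 0 else 1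

theorem dist_comm (k : ℕ) (x y : List Bool) : dist k x y = dist k y x := by
  unfold dist
  refine Finset.sum_congr rfl fun i _ => ?_
  simp only [eq_comm]

theorem dist_self (k : ℕ) (x : List Bool) : dist k x x = 0 := by
  unfold dist
  simp

theorem dist_le (k : ℕ) (x y : List Bool) : dist k x y ≤ k := by
  unfold dist
  calc _ ≤ ∑ _i ∈ Finset.range k, 1 := Finset.sum_le_sum fun i _ => by split_ifs <;> omega
    _ = k := by simp

theorem dist_cons (k : ℕ) (a b : Bool) (x y : List Bool) :
    dist (k + 1) (a :: x) (b :: y) = dist k x y + if a = b then 0 else 1 := by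
  unfold dist
  rw [Finset.sum_range_succ']
  rfl

theorem dist_pos {k : ℕ} {x y : List Bool} (hx : x.length = k) (hy : y.length = k) (hxy : x ≠ y) :
    1 ≤ dist k x y := by
  rw [Nat.one_le_iff_ne_zero]
  intro h
  apply hxy
  unfold dist at h
  rw [Finset.sum_eq_zero_iff] at h
  apply List.ext_getElem (by rw [hx, hy])
  intro i h1 h2
  have h3 := h i (Finset.mem_range.2 (by omega))
  by_contra hne
  rw [List.getD_eq_getElem _ _ h1, List.getD_eq_getElem _ _ h2, if_neg hne] at h3
  exact one_ne_zero h3

section poly

variable {F : Type*} [Field F]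

/-- the monomial functions -/
def mon (F : Type*) [Field F] (U : Finset ℕ) : List Bool → F :=
  fun x => ∏ i ∈ U, if x.getD i false = true then 1 else 0

theorem mon_insert (U : Finset ℕ) (i : ℕ) (x : List Bool) :
    (if x.getD i false = true then (1 : F) else 0) * mon F U x = mon F (insert i U) x := by
  classical
  unfold mon
  by_cases hi : i ∈ U
  · rw [Finset.insert_eq_of_mem hi]
    split_ifs with h
    · rw [one_mul]
    · rw [zero_mul]
      exact (Finset.prod_eq_zero hi (by rw [if_neg h])).symm
  · rw [Finset.prod_insert hi]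

/-- the monomials of degree at most `s` -/
def mons (F : Type*) [Field F] (k s : ℕ) : Set (List Bool → F) :=
  mon F '' {U : Finset ℕ | U ⊆ Finset.range k ∧ U.card ≤ s}

theorem mul_letter {k s i : ℕ} (hi : i < k) {u : List Bool → F}
    (hu : u ∈ Submodule.span F (mons F k s)) :
    (fun x : List Bool => (if x.getD i false = true then (1 : F) else 0) * u x) ∈
      Submodule.span F (mons F k (s + 1)) := by
  classical
  induction hu using Submodule.span_induction with
  | mem u hu =>
    obtain ⟨U, ⟨hU, hc⟩, rfl⟩ := hu
    refine Submodule.subset_span ⟨insert i U, ⟨?_, ?_⟩, ?_⟩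
    · exact Finset.insert_subset (Finset.mem_range.2 hi) hU
    · exact (Finset.card_insert_le _ _).trans (by omega)
    · funext x
      exact (mon_insert U i x).symm
  | zero =>
    have h0 := Submodule.zero_mem (Submodule.span F (mons F k (s + 1)))
    convert h0 using 1
    funext x
    simp
  | add u v _ _ hu hv =>
    have := Submodule.add_mem _ hu hv
    convert this using 1
    funext x
    simp [mul_add]
  | smul a u _ hu =>
    have := Submodule.smul_mem _ a hu
    convert this using 1
    funext x
    simp [mul_left_comm]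

theorem mons_mono {k s t : ℕ} (h : s ≤ t) : mons F k s ⊆ mons F k t := by
  rintro _ ⟨U, ⟨hU, hc⟩, rfl⟩
  exact ⟨U, ⟨hU, hc.trans h⟩, rfl⟩

/-- multiplication by an affine function of the distance -/
theorem mul_dist {k s : ℕ} (a : List Bool) (c : F) {u : List Bool → F}
    (hu : u ∈ Submodule.span F (mons F k s)) :
    (fun x : List Bool => (c - (dist k a x : F)) * u x) ∈
      Submodule.span F (mons F k (s + 1)) := by
  classical
  have h1 : (fun x : List Bool => (c - (dist k a x : F)) * u x) = c • u -
      ∑ i ∈ Finset.range k, ((if a.getD i false = true then (1 : F) else 0) • u +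
        (1 - 2 * (if a.getD i false = true then (1 : F) else 0)) •
          fun x : List Bool => (if x.getD i false = true then (1 : F) else 0) * u x) := by
    funext x
    simp only [Pi.sub_apply, Finset.sum_apply, Pi.add_apply, Pi.smul_apply, smul_eq_mul]
    rw [sub_mul, dist, Nat.cast_sum, Finset.sum_mul]
    congr 1
    refine Finset.sum_congr rfl fun i _ => ?_
    cases a.getD i false <;> cases x.getD i false <;> (simp; try ring)
  rw [h1]
  have hu' : u ∈ Submodule.span F (mons F k (s + 1)) :=
    Submodule.span_mono (mons_mono (Nat.le_succ s)) hu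
  refine Submodule.sub_mem _ (Submodule.smul_mem _ _ hu') (Submodule.sum_mem _ fun i hi => ?_)
  exact Submodule.add_mem _ (Submodule.smul_mem _ _ hu')
    (Submodule.smul_mem _ _ (mul_letter (Finset.mem_range.1 hi) hu))

theorem prod_mem (k : ℕ) (a : List Bool) (J : Finset F) :
    (fun x : List Bool => ∏ c ∈ J, (c - (dist k a x : F))) ∈
      Submodule.span F (mons F k J.card) := by
  classical
  induction J using Finset.induction_on with
  | empty =>
    refine Submodule.subset_span ⟨∅, ⟨Finset.empty_subset _, by simp⟩, ?_⟩
    funext x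
    simp [mon]
  | insert c J hc ih =>
    rw [Finset.card_insert_of_notMem hc]
    have := mul_dist a c ih
    convert this using 1
    funext x
    rw [Finset.prod_insert hc]

theorem sum_choose_le (k s : ℕ) : ∑ i ∈ Finset.range (s + 1), k.choose i ≤ (k + 1) ^ s := by
  rw [add_pow]
  refine Finset.sum_le_sum fun i hi => ?_
  have hi' : i ≤ s := Nat.lt_succ_iff.1 (Finset.mem_range.1 hi)
  calc k.choose i ≤ k ^ i := Nat.choose_le_pow _ _
    _ ≤ k ^ i * 1 ^ (s - i) * (s.choose i) := by
      rw [one_pow, mul_one]
      exact Nat.le_mul_of_pos_right _ (Nat.choose_pos hi')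

theorem mons_finite (F : Type*) [Field F] (k s : ℕ) :
    ∃ V : Finset (List Bool → F), (V : Set (List Bool → F)) = mons F k s ∧
      V.card ≤ (k + 1) ^ s := by
  classical
  refine ⟨((Finset.range (s + 1)).biUnion fun i => (Finset.range k).powersetCard i).image (mon F),
    ?_, ?_⟩
  · rw [Finset.coe_image]
    unfold mons
    congr 1
    ext U
    simp only [Finset.coe_biUnion, Finset.mem_coe, Finset.mem_range, Set.mem_iUnion,
      Finset.mem_powersetCard, Set.mem_ofPred_eq, exists_prop]
    constructor
    · rintro ⟨i, hi, h1, h2⟩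
      exact ⟨h1, by omega⟩
    · rintro ⟨h1, h2⟩
      exact ⟨U.card, by omega, h1, rfl⟩
  · refine Finset.card_image_le.trans (Finset.card_biUnion_le.trans ?_)
    simp only [Finset.card_powersetCard, Finset.card_range]
    exact sum_choose_le k s

/-- **Few distances.** -/
theorem few_distances (k : ℕ) (J : Finset F) (h0 : (0 : F) ∉ J) (S : Finset (List Bool))
    (hS : ∀ x ∈ S, ∀ y ∈ S, x ≠ y → (dist k x y : F) ∈ J) : S.card ≤ (k + 1) ^ J.card := by
  classical
  obtain ⟨V, hV, hVc⟩ := mons_finite F k J.card
  set v : S → (List Bool → F) := fun a x => ∏ c ∈ J, (c - (dist k a.1 x : F)) with hv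
  have hvself : ∀ a : S, v a a.1 ≠ 0 := by
    intro a
    rw [hv]
    simp only
    rw [Finset.prod_ne_zero_iff]
    intro c hc
    rw [dist_self, Nat.cast_zero, sub_zero]
    rintro rfl
    exact h0 hc
  have hvne : ∀ a b : S, a ≠ b → v a b.1 = 0 := by
    intro a b hab
    rw [hv]
    simp only
    exact Finset.prod_eq_zero (hS a.1 a.2 b.1 b.2 fun h => hab (Subtype.ext h)) (sub_self _)
  have hli : LinearIndependent F v := by
    rw [Fintype.linearIndependent_iff]
    intro g hg b
    have h1 := congrFun hg b.1
    rw [Finset.sum_apply, Finset.sum_eq_single b] at h1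
    · rw [Pi.smul_apply, smul_eq_mul, Pi.zero_apply] at h1
      exact (mul_eq_zero.1 h1).resolve_right (hvself b)
    · intro a _ hab
      rw [Pi.smul_apply, hvne a b hab, smul_zero]
    · intro h
      exact absurd (Finset.mem_univ _) h
  have hspan : Set.range v ≤ Submodule.span F (V : Set (List Bool → F)) := by
    rintro _ ⟨a, rfl⟩
    rw [hV]
    exact prod_mem k a.1 J
  have h1 := linearIndependent_le_span' v hli (V : Set (List Bool → F)) hspan
  have h2 : Fintype.card ((V : Set (List Bool → F))) = V.card := Fintype.card_coe V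
  rw [Cardinal.mk_fintype, h2, Fintype.card_coe] at h1
  exact (Nat.cast_le.1 h1).trans hVc

end poly

/-- **The Frankl–Wilson bound for Hamming distances.** Let `p` be a prime number. A set of binary
words of length `p ^ 2 - 1` has at most `p ^ (2 (p - 1))` elements if no distance between different
elements is divisible by `p`, and also if all these distances are divisible by `p`. -/
theorem frankl_wilson {p : ℕ} (hp : p.Prime) (S : Finset (List Bool)) (b : Bool)
    (hS : ∀ x ∈ S, x.length = p ^ 2 - 1)
    (hb : ∀ x ∈ S, ∀ y ∈ S, x ≠ y → decide (p ∣ dist (p ^ 2 - 1) x y) = b) :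
    S.card ≤ p ^ (2 * (p - 1)) := by
  classical
  have hp1 : 1 < p := hp.one_lt
  have hk : p ^ 2 - 1 + 1 = p ^ 2 := Nat.sub_add_cancel (Nat.one_le_pow _ _ hp.pos)
  have hfin : (p ^ 2 - 1 + 1) ^ (p - 1) = p ^ (2 * (p - 1)) := by rw [hk, ← pow_mul]
  cases b with
  | false =>
    have : Fact p.Prime := ⟨hp⟩
    have h1 := few_distances (F := ZMod p) (p ^ 2 - 1) ({0}ᶜ) (by simp) S (by
      intro x hx y hy hxy
      have h2 := of_decide_eq_false (hb x hx y hy hxy)
      rw [Finset.mem_compl, Finset.mem_singleton]
      intro h
      exact h2 ((ZMod.natCast_eq_zero_iff _ _).1 h))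
    rw [Finset.card_compl, ZMod.card, Finset.card_singleton, hfin] at h1
    exact h1
  | true =>
    have h1 := few_distances (F := ℚ) (p ^ 2 - 1)
      ((Finset.Icc 1 (p - 1)).image fun j : ℕ => ((p * j : ℕ) : ℚ)) (by
        rw [Finset.mem_image]
        rintro ⟨j, hj, h⟩
        rw [Finset.mem_Icc] at hj
        rw [Nat.cast_eq_zero, Nat.mul_eq_zero] at h
        omega) S (by
      intro x hx y hy hxy
      obtain ⟨j, hj⟩ := of_decide_eq_true (hb x hx y hy hxy)
      rw [Finset.mem_image]
      refine ⟨j, ?_, by rw [hj]⟩
      have h2 := dist_pos (hS x hx) (hS y hy) hxy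
      have h3 := dist_le (p ^ 2 - 1) x y
      rw [Finset.mem_Icc]
      constructor
      · rcases Nat.eq_zero_or_pos j with h | h
        · rw [hj, h] at h2; simp at h2
        · exact h
      · by_contra hcon
        have h4 : p ≤ j := by omega
        have h5 : p * p ≤ p * j := Nat.mul_le_mul_left _ h4
        rw [hj] at h3
        have h6 : 0 < p ^ 2 := by positivity
        rw [sq] at h3 h6
        omega)
    have h2 : ((Finset.Icc 1 (p - 1)).image fun j : ℕ => ((p * j : ℕ) : ℚ)).card ≤ p - 1 :=
      Finset.card_image_le.trans (by simp)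
    calc S.card ≤ (p ^ 2 - 1 + 1) ^ _ := h1
      _ ≤ (p ^ 2 - 1 + 1) ^ (p - 1) := Nat.pow_le_pow_right (by omega) h2
      _ = p ^ (2 * (p - 1)) := hfin

end Pool.Agent.U215.AC
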