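import Pool.Agent.U215.AC.Main
import Pool.Agent.U215.AC.FW

/-!
# Lexicographic powers of a colouring computed by an automaton
-/

set_option autoImplicit false

namespace Pool.Agent.U215.AC

section lex

variable {α κ P : Type}

/-- the states: the colour, or the number of columns read in the present block, the state of the
given automaton, and the information whether a difference has been read in this block -/
abbrev LSt (κ P : Type) (k : ℕ) : Type := κ ⊕ (Fin k × P × Bool)

variable [DecidableEq α]

/-- the transitions of the lexicographic power -/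
def lstep (δ : P → α → α → P) (q₀ : P) (g : P → κ) {k : ℕ} :
    LSt κ P k → α → α → LSt κ P k
  | Sum.inl c, _, _ => Sum.inl c
  | Sum.inr (i, q, d), a, b =>
    if h : i.1 + 1 < k then Sum.inr (⟨i.1 + 1, h⟩, δ q a b, d || !decide (a = b))
    else if (d || !decide (a = b)) = true then Sum.inl (g (δ q a b))
      else Sum.inr (⟨0, i.pos⟩, q₀, false)

theorem run_inl (δ : P → α → α → P) (q₀ : P) (g : P → κ) {k : ℕ} (c : κ) (x : List α) :
    ∀ y : List α, run (lstep δ q₀ g (k := k)) (Sum.inl c) x y = Sum.inl c := by
  induction x with
  | nil => intro y; rfl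
  | cons a x ih =>
    intro y
    cases y with
    | nil => rfl
    | cons b y => exact ih y

/-- reading the rest of a block -/
theorem run_block (δ : P → α → α → P) (q₀ : P) (g : P → κ) {k : ℕ} (hk : 0 < k) (x' y' : List α) :
    ∀ (u v : List α) (i : ℕ) (hi : i < k) (q : P) (d : Bool), u.length = v.length →
      i + u.length = k → 
      run (lstep δ q₀ g) (Sum.inr (⟨i, hi⟩, q, d)) (u ++ x') (v ++ y') =
        if (d || !decide (u = v)) = true then Sum.inl (g (run δ q u v))
        else run (lstep δ q₀ g) (Sum.inr (⟨0, hk⟩, q₀, false)) x' y' := by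
  intro u
  induction u with
  | nil =>
    intro v i hi q d hl hk'
    simp at hk'
    omega
  | cons a u ih =>
    intro v i hi q d hl hk'
    cases v with
    | nil => simp at hl
    | cons b v =>
      have hl' : u.length = v.length := by simpa using hl
      rw [List.length_cons] at hk'
      show run (lstep δ q₀ g) (lstep δ q₀ g (Sum.inr (⟨i, hi⟩, q, d)) a b) (u ++ x') (v ++ y') = _
      show _ = if (d || !decide (a :: u = b :: v)) = true then Sum.inl (g (run δ (δ q a b) u v))
        else _
      by_cases h : i + 1 < k
      · have h1 : lstep δ q₀ g (Sum.inr (⟨i, hi⟩, q, d)) a b =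
            Sum.inr (⟨i + 1, h⟩, δ q a b, d || !decide (a = b)) := by
          simp only [lstep]
          rw [dif_pos h]
        rw [h1, ih v (i + 1) h _ _ hl' (by omega)]
        have h2 : ((d || !decide (a = b)) || !decide (u = v)) = (d || !decide (a :: u = b :: v)) := by
          by_cases hab : a = b <;> by_cases huv : u = v <;> simp [hab, huv]
        rw [h2]
      · have hu : u = [] := by
          apply List.eq_nil_of_length_eq_zero; omega
        have hv : v = [] := by
          apply List.eq_nil_of_length_eq_zero; omega
        subst hu hv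
        have h2 : (d || !decide (a = b)) = (d || !decide (a :: ([] : List α) = b :: [])) := by
          by_cases hab : a = b <;> simp [hab]
        rw [← h2]
        by_cases h3 : (d || !decide (a = b)) = true
        · have h1 : lstep δ q₀ g (Sum.inr (⟨i, hi⟩, q, d)) a b = Sum.inl (g (δ q a b)) := by
            simp only [lstep]
            rw [dif_neg h, if_pos h3]
          rw [h1, if_pos h3]
          exact run_inl _ _ _ _ _ _
        · have h1 : lstep δ q₀ g (Sum.inr (⟨i, hi⟩, q, d)) a b =
              Sum.inr (⟨0, hk⟩, q₀, false) := by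
            simp only [lstep]
            rw [dif_neg h, if_neg h3]
          rw [h1, if_neg h3]
          rfl

/-- the colour of a state -/
def lout (k₀ : κ) {k : ℕ} : LSt κ P k → κ
  | Sum.inl c => c
  | Sum.inr _ => k₀

variable [LinearOrder α]

end lex

section small

variable {α κ P : Type} [LinearOrder α]

theorem lt_of_append_lt {u v x y : List α} (hl : u.length = v.length) (hne : u ≠ v)
    (h : u ++ x < v ++ y) : u < v := by
  rcases lt_trichotomy u v with h1 | h1 | h1
  · exact h1
  · exact absurd h1 hne
  · exact absurd h (lt_asymm (append_lt_append hl.symm h1 y x))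

/-- **Lexicographic powers.** If the homogeneous sets of words of length `k` for a colouring that is
computed by an automaton have at most `H` elements, then the homogeneous sets of words of length
`k r` for the lexicographic power have at most `H ^ r` elements. -/
theorem small (δ : P → α → α → P) (q₀ : P) (g : P → κ) (k₀ b : κ) {k H : ℕ} (hk : 0 < k)
    (hH : ∀ S : Finset (List α), (∀ x ∈ S, x.length = k) →
      (∀ x ∈ S, ∀ y ∈ S, x < y → g (run δ q₀ x y) = b) → S.card ≤ H) :
    ∀ (r : ℕ) (S : Finset (List α)), (∀ x ∈ S, x.length = k * r) →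
      (∀ x ∈ S, ∀ y ∈ S, x < y →
        lout k₀ (run (lstep δ q₀ g) (Sum.inr (⟨0, hk⟩, q₀, false)) x y) = b) → S.card ≤ H ^ r := by
  classical
  intro r
  induction r with
  | zero =>
    intro S hS _
    rw [pow_zero]
    refine Finset.card_le_one.2 fun x hx y hy => ?_
    have h1 := hS x hx
    have h2 := hS y hy
    rw [mul_zero, List.length_eq_zero_iff] at h1 h2
    rw [h1, h2]
  | succ r ih =>
    intro S hS hb
    have hlen : ∀ x ∈ S, (x.take k).length = k := fun x hx => by
      rw [List.length_take, hS x hx]
      exact min_eq_left (Nat.le_mul_of_pos_right k (Nat.succ_pos r))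
    have hdrop : ∀ x ∈ S, (x.drop k).length = k * r := fun x hx => by
      rw [List.length_drop, hS x hx, Nat.mul_succ]; omega
    have hrun : ∀ x ∈ S, ∀ y ∈ S,
        run (lstep δ q₀ g) (Sum.inr (⟨0, hk⟩, q₀, false)) x y =
          if x.take k = y.take k then
            run (lstep δ q₀ g) (Sum.inr (⟨0, hk⟩, q₀, false)) (x.drop k) (y.drop k)
          else Sum.inl (g (run δ q₀ (x.take k) (y.take k))) := by
      intro x hx y hy
      conv_lhs => rw [← List.take_append_drop k x, ← List.take_append_drop k y]
      rw [run_block δ q₀ g hk _ _ _ _ 0 hk q₀ false (by rw [hlen x hx, hlen y hy])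
        (by rw [hlen x hx, Nat.zero_add])]
      by_cases h : x.take k = y.take k <;> simp [h]
    -- the heads
    have hT : (S.image (List.take k)).card ≤ H := by
      refine hH _ ?_ ?_
      · intro u hu
        obtain ⟨x, hx, rfl⟩ := Finset.mem_image.1 hu
        exact hlen x hx
      · intro u hu v hv huv
        obtain ⟨x, hx, rfl⟩ := Finset.mem_image.1 hu
        obtain ⟨y, hy, rfl⟩ := Finset.mem_image.1 hv
        have hxy : x < y := by
          rw [← List.take_append_drop k x, ← List.take_append_drop k y]
          exact append_lt_append (by rw [hlen x hx, hlen y hy]) huv _ _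
        have h1 := hb x hx y hy hxy
        rw [hrun x hx y hy, if_neg huv.ne] at h1
        exact h1
    have hfib : ∀ u ∈ S.image (List.take k), (S.filter fun x => x.take k = u).card ≤ H ^ r := by
      intro u _
      have hinj : Set.InjOn (List.drop k)
          (((S.filter fun x => x.take k = u) : Finset (List α)) : Set (List α)) := by
        intro x hx y hy hxy
        have hx' := (Finset.mem_filter.1 (Finset.mem_coe.1 hx)).2
        have hy' := (Finset.mem_filter.1 (Finset.mem_coe.1 hy)).2
        rw [← List.take_append_drop k x, ← List.take_append_drop k y, hx', hy', hxy]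
      rw [← Finset.card_image_of_injOn hinj]
      refine ih _ ?_ ?_
      · intro x hx
        obtain ⟨x', hx', rfl⟩ := Finset.mem_image.1 hx
        exact hdrop x' (Finset.mem_filter.1 hx').1
      · intro x hx y hy hlt
        obtain ⟨x', hx', rfl⟩ := Finset.mem_image.1 hx
        obtain ⟨y', hy', rfl⟩ := Finset.mem_image.1 hy
        obtain ⟨hx1, hx2⟩ := Finset.mem_filter.1 hx'
        obtain ⟨hy1, hy2⟩ := Finset.mem_filter.1 hy'
        have h0 : x' < y' := by
          rw [← List.take_append_drop k x', ← List.take_append_drop k y', hx2, hy2]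
          exact append_left_lt' _ hlt
        have h1 := hb x' hx1 y' hy1 h0
        rw [hrun x' hx1 y' hy1, if_pos (hx2.trans hy2.symm)] at h1
        exact h1
    calc S.card ≤ H ^ r * (S.image (List.take k)).card :=
          Finset.card_le_mul_card_image S _ hfib
      _ ≤ H ^ r * H := Nat.mul_le_mul_left _ hT
      _ = H ^ (r + 1) := by rw [pow_succ]

end small

/-! ### The distance modulo `p` -/

/-- counts the differences modulo `p` -/
def fstep (p : ℕ) : ZMod p → Bool → Bool → ZMod p := fun q a b => if a = b then q else q + 1

theorem run_fstep (p : ℕ) (x : List Bool) : ∀ (y : List Bool) (q : ZMod p), x.length = y.length →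
    run (fstep p) q x y = q + (dist x.length x y : ZMod p) := by
  induction x with
  | nil =>
    intro y q hl
    cases y with
    | nil => simp [run, dist]
    | cons b y => simp at hl
  | cons a x ih =>
    intro y q hl
    cases y with
    | nil => simp at hl
    | cons b y =>
      show run (fstep p) (fstep p q a b) x y = _
      rw [ih y _ (by simpa using hl), List.length_cons, dist_cons]
      unfold fstep
      split_ifs <;> push_cast <;> ring

/-- the colour: is the distance divisible by `p`? -/
def fout (p : ℕ) : ZMod p → Bool := fun q => decide (q = 0)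

theorem small_block {p : ℕ} (hp : p.Prime) (b : Bool) (S : Finset (List Bool))
    (hS : ∀ x ∈ S, x.length = p ^ 2 - 1)
    (hb : ∀ x ∈ S, ∀ y ∈ S, x < y → fout p (run (fstep p) 0 x y) = b) :
    S.card ≤ p ^ (2 * (p - 1)) := by
  have key : ∀ x ∈ S, ∀ y ∈ S, x < y → decide (p ∣ dist (p ^ 2 - 1) x y) = b := by
    intro x hx y hy hxy
    rw [← hb x hx y hy hxy, run_fstep p x y 0 (by rw [hS x hx, hS y hy]), zero_add, hS x hx]
    unfold fout
    rw [decide_eq_decide]
    exact (ZMod.natCast_eq_zero_iff _ _).symm
  refine frankl_wilson hp S b hS fun x hx y hy hxy => ?_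
  rcases lt_or_gt_of_ne hxy with h | h
  · exact key x hx y hy h
  · rw [dist_comm]
    exact key y hy x hx h

theorem card_LSt {p : ℕ} (hp : p.Prime) [NeZero p] :
    Fintype.card (LSt Bool (ZMod p) (p ^ 2 - 1)) ≤ 2 * p ^ 3 := by
  rw [Fintype.card_sum, Fintype.card_prod, Fintype.card_prod, Fintype.card_bool, Fintype.card_fin,
    ZMod.card]
  obtain ⟨n, hn⟩ : ∃ n, p = n + 2 := ⟨p - 2, by have := hp.two_le; omega⟩
  subst hn
  have h1 : (n + 2) ^ 2 - 1 = n ^ 2 + 4 * n + 3 := by
    have : (n + 2) ^ 2 = n ^ 2 + 4 * n + 4 := by ring
    omega
  rw [h1]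
  nlinarith [Nat.zero_le n]

end Pool.Agent.U215.AC
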