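import Pool.Agent.U215.AC.Core

/-!
# Large homogeneous sets for the colourings computed by a finite automaton
-/

set_option autoImplicit false

namespace Pool.Agent.U215.AC

open MulOpposite

section exist

variable {α M : Type*} [Monoid M] [LinearOrder α]

theorem exists_pair [Fintype α] [Fintype M] (h : α → α → M) {l : ℕ}
    (hcard : Fintype.card M < Fintype.card α ^ l) :
    ∃ u v : List α, u.length = l ∧ v.length = l ∧ u < v ∧ ph h u u = ph h v v := by
  classical
  have hc : Fintype.card M < Fintype.card (List.Vector α l) := by rwa [card_vector]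
  obtain ⟨a, b, hab, he⟩ := Fintype.exists_ne_map_eq_of_card_lt
    (fun u : List.Vector α l => ph h u.1 u.1) hc
  have hne : a.1 ≠ b.1 := fun h' => hab (Subtype.ext h')
  rcases lt_or_gt_of_ne hne with h1 | h1
  · exact ⟨a.1, b.1, a.2, b.2, h1, he⟩
  · exact ⟨b.1, a.1, b.2, a.2, h1, he.symm⟩

/-- A multiple of an idempotent exponent is an idempotent exponent. -/
theorem pow_mult {t : M} {p : ℕ} (hp : t ^ p * t ^ p = t ^ p) {k : ℕ} (hk : 1 ≤ k) :
    t ^ (p * k) = t ^ p := by
  obtain ⟨j, rfl⟩ : ∃ j, k = j + 1 := ⟨k - 1, by omega⟩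
  rw [pow_mul]
  exact idem_pow hp j

/-- The words `A` and `B` from the words `u < v` with `φ(u, u) = φ(v, v)`. -/
theorem good_of (h : α → α → M) {l : ℕ} {u v : List α} (hu : u.length = l) (hv : v.length = l)
    (huv : u < v) (he : ph h u u = ph h v v) {p₁ p : ℕ} (hp1 : 1 ≤ p₁) (hp0 : 1 ≤ p)
    (hdvd : p₁ ∣ p) (hE2 : ph h u u ^ p₁ * ph h u u ^ p₁ = ph h u u ^ p₁)
    (hF2 : ph h (rep p₁ u ++ (u ++ rep p₁ u)) (rep p₁ u ++ (v ++ rep p₁ u)) ^ p *
      ph h (rep p₁ u ++ (u ++ rep p₁ u)) (rep p₁ u ++ (v ++ rep p₁ u)) ^ p =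
      ph h (rep p₁ u ++ (u ++ rep p₁ u)) (rep p₁ u ++ (v ++ rep p₁ u)) ^ p)
    (hG2 : ph h (rep p₁ u ++ (v ++ rep p₁ u)) (rep p₁ u ++ (u ++ rep p₁ u)) ^ p *
      ph h (rep p₁ u ++ (v ++ rep p₁ u)) (rep p₁ u ++ (u ++ rep p₁ u)) ^ p =
      ph h (rep p₁ u ++ (v ++ rep p₁ u)) (rep p₁ u ++ (u ++ rep p₁ u)) ^ p) :
    ∃ (A B : List α) (E F F' : M), A < B ∧ A.length = p * ((2 * p₁ + 1) * l) ∧
      Good h A B E F F' := by
  set e := ph h u u with hedef
  have huv' : u.length = v.length := hu.trans hv.symm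
  have hee : ph h (rep p₁ u) (rep p₁ u) = e ^ p₁ := ph_rep h rfl p₁
  have key1 : ∀ x y : List α, x.length = l → y.length = l →
      ph h (rep p₁ u ++ (x ++ rep p₁ u)) (rep p₁ u ++ (y ++ rep p₁ u)) =
        e ^ p₁ * (ph h x y * e ^ p₁) := by
    intro x y hx hy
    rw [ph_append h rfl, ph_append h (by omega), hee]
  have key : ∀ x y : List α, x.length = l → y.length = l →
      ph h (rep p (rep p₁ u ++ (x ++ rep p₁ u))) (rep p (rep p₁ u ++ (y ++ rep p₁ u))) =
        (e ^ p₁ * (ph h x y * e ^ p₁)) ^ p := by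
    intro x y hx hy
    rw [ph_rep h (by simp only [List.length_append]; omega), key1 x y hx hy]
  rw [key1 u v hu hv] at hF2
  rw [key1 v u hv hu] at hG2
  obtain ⟨q, hq⟩ : ∃ q, p = q + 1 := ⟨p - 1, by omega⟩
  have hEx : ∀ t : M, e ^ p₁ * (e ^ p₁ * (t * e ^ p₁)) ^ p = (e ^ p₁ * (t * e ^ p₁)) ^ p := by
    intro t
    have h1 : e ^ p₁ * (e ^ p₁ * (t * e ^ p₁)) = e ^ p₁ * (t * e ^ p₁) := by
      rw [← mul_assoc, hE2]
    rw [hq, pow_succ', ← mul_assoc, h1]
  have hxE : ∀ t : M, (e ^ p₁ * (t * e ^ p₁)) ^ p * e ^ p₁ = (e ^ p₁ * (t * e ^ p₁)) ^ p := by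
    intro t
    have h1 : e ^ p₁ * (t * e ^ p₁) * e ^ p₁ = e ^ p₁ * (t * e ^ p₁) := by
      rw [mul_assoc, mul_assoc, hE2]
    rw [hq, pow_succ, mul_assoc, h1]
  have hself : (e ^ p₁ * (e * e ^ p₁)) ^ p = e ^ p₁ := by
    have h1 : e ^ p₁ * (e * e ^ p₁) = e ^ (2 * p₁ + 1) := by
      rw [← pow_succ', ← pow_add]; congr 1; ring
    obtain ⟨p₂, hp₂⟩ := hdvd
    have hp₂' : 1 ≤ p₂ := by
      rcases Nat.eq_zero_or_pos p₂ with h2 | h2
      · rw [h2] at hp₂; omega
      · exact h2
    have h2 : (2 * p₁ + 1) * p = p₁ * (p₂ * (2 * p₁ + 1)) := by rw [hp₂]; ring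
    rw [h1, ← pow_mul, h2]
    exact pow_mult hE2 (Nat.one_le_iff_ne_zero.2 (by positivity))
  refine ⟨rep p (rep p₁ u ++ (u ++ rep p₁ u)), rep p (rep p₁ u ++ (v ++ rep p₁ u)), e ^ p₁,
    (e ^ p₁ * (ph h u v * e ^ p₁)) ^ p, (e ^ p₁ * (ph h v u * e ^ p₁)) ^ p, ?_, ?_, ?_⟩
  · refine rep_lt_rep (by simp only [List.length_append]; omega) ?_ hp0
    exact append_left_lt' _ (append_lt_append huv' huv _ _)
  · rw [rep_length, List.length_append, List.length_append, rep_length, hu]
    ring
  · exact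
      { len := by simp only [rep_length, List.length_append]; rw [huv']
        AA := by rw [key u u hu hu]; exact hself
        BB := by rw [key v v hv hv, ← he]; exact hself
        AB := key u v hu hv
        BA := key v u hv hu
        EE := hE2
        EF := hEx _
        FE := hxE _
        EG := hEx _
        GE := hxE _
        FF := hF2
        GG := hG2 }

/-- Different exponents. -/
theorem exists_good [Fintype α] [Fintype M] (h : α → α → M) {l R : ℕ} (hR : 1 ≤ R)
    (hexp : ∀ t : M, ∃ p : ℕ, 1 ≤ p ∧ p ≤ R ∧ t ^ p * t ^ p = t ^ p)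
    (hcard : Fintype.card M < Fintype.card α ^ l) :
    ∃ (A B : List α) (E F F' : M), A < B ∧ A.length ≤ 3 * R ^ 4 * l ∧
      Good h A B E F F' := by
  obtain ⟨u, v, hu, hv, huv, he⟩ := exists_pair h hcard
  obtain ⟨p₁, hp1, hp1R, hE2⟩ := hexp (ph h u u)
  obtain ⟨p₂, hp2, hp2R, hF2⟩ :=
    hexp (ph h (rep p₁ u ++ (u ++ rep p₁ u)) (rep p₁ u ++ (v ++ rep p₁ u)))
  obtain ⟨p₃, hp3, hp3R, hG2⟩ :=
    hexp (ph h (rep p₁ u ++ (v ++ rep p₁ u)) (rep p₁ u ++ (u ++ rep p₁ u)))
  obtain ⟨A, B, E, F, F', hAB, hA, hg⟩ := good_of h hu hv huv he (p := p₁ * p₂ * p₃) hp1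
    (Nat.one_le_iff_ne_zero.2 (by positivity)) ⟨p₂ * p₃, by ring⟩ hE2 (by
      have h2 : p₁ * p₂ * p₃ = p₂ * (p₁ * p₃) := by ring
      rw [h2, pow_mult hF2 (Nat.one_le_iff_ne_zero.2 (by positivity))]
      exact hF2) (by
      have h2 : p₁ * p₂ * p₃ = p₃ * (p₁ * p₂) := by ring
      rw [h2, pow_mult hG2 (Nat.one_le_iff_ne_zero.2 (by positivity))]
      exact hG2)
  refine ⟨A, B, E, F, F', hAB, ?_, hg⟩
  rw [hA]
  calc p₁ * p₂ * p₃ * ((2 * p₁ + 1) * l) ≤ R * R * R * ((2 * R + R) * l) := by gcongr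
    _ = 3 * R ^ 4 * l := by ring

/-- A common exponent. -/
theorem exists_good' [Fintype α] [Fintype M] (h : α → α → M) {l R : ℕ} (hR : 1 ≤ R)
    (hexp : ∀ x y : List α, x.length = y.length → ph h x y ^ R * ph h x y ^ R = ph h x y ^ R)
    (hcard : Fintype.card M < Fintype.card α ^ l) :
    ∃ (A B : List α) (E F F' : M), A < B ∧ A.length ≤ 3 * R ^ 2 * l ∧
      Good h A B E F F' := by
  obtain ⟨u, v, hu, hv, huv, he⟩ := exists_pair h hcard
  obtain ⟨A, B, E, F, F', hAB, hA, hg⟩ := good_of h hu hv huv he (p := R) hR hR (dvd_refl R)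
    (hexp u u rfl) (hexp _ _ (by simp only [List.length_append]; omega))
    (hexp _ _ (by simp only [List.length_append]; omega))
  refine ⟨A, B, E, F, F', hAB, ?_, hg⟩
  rw [hA]
  calc R * ((2 * R + 1) * l) ≤ R * ((2 * R + R) * l) := by gcongr
    _ = 3 * R ^ 2 * l := by ring

end exist

/-! ### Automata -/

/-- The state of the automaton with the transition function `δ` which is in the state `q` and reads
the columns `(x_1, y_1), (x_2, y_2), …`. -/
def run {α Q : Type*} (δ : Q → α → α → Q) : Q → List α → List α → Q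
  | q, a :: x, b :: y => run δ (δ q a b) x y
  | q, _, _ => q

/-- the letter maps -/
def lm {α Q : Type*} (δ : Q → α → α → Q) (a b : α) : (Function.End Q)ᵐᵒᵖ :=
  op (fun q => δ q a b)

theorem run_eq {α Q : Type*} (δ : Q → α → α → Q) (x : List α) : ∀ (y : List α) (q₀ : Q),
    x.length = y.length → run δ q₀ x y = (ph (lm δ) x y).unop q₀ := by
  induction x with
  | nil =>
    intro y q₀ hl
    cases y with
    | nil => rfl
    | cons b y => simp at hl
  | cons a x ih =>
    intro y q₀ hl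
    cases y with
    | nil => simp at hl
    | cons b y =>
      have h1 := ih y (δ q₀ a b) (by simpa using hl)
      have h2 : ph (lm δ) (a :: x) (b :: y) = lm δ a b * ph (lm δ) x y := by
        unfold ph
        rw [List.zipWith_cons_cons, List.prod_cons]
      rw [h2, unop_mul]
      exact h1

/-- the constant -/
def K (w : ℕ) : ℕ := 12 * (T w ^ 5 * (w ^ 2 + 1))

theorem card_end_lt {Q : Type*} [Fintype Q] [DecidableEq Q] {w b : ℕ} (hw : Fintype.card Q ≤ w)
    (hb : 2 ≤ b) (q₀ : Q) :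
    Fintype.card (Q → Q) < b ^ (w ^ 2 + 1) := by
  have h0 : 0 < Fintype.card Q := Fintype.card_pos_iff.2 ⟨q₀⟩
  rw [Fintype.card_fun]
  calc Fintype.card Q ^ Fintype.card Q ≤ w ^ Fintype.card Q := Nat.pow_le_pow_left hw _
    _ ≤ w ^ w := Nat.pow_le_pow_right (by omega) hw
    _ ≤ (2 ^ w) ^ w := Nat.pow_le_pow_left (Nat.lt_two_pow_self).le _
    _ = 2 ^ (w ^ 2) := by rw [← pow_mul, sq]
    _ < 2 ^ (w ^ 2 + 1) := Nat.pow_lt_pow_right (by norm_num) (by omega)
    _ ≤ b ^ (w ^ 2 + 1) := Nat.pow_le_pow_left hb _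

/-- A family of code words gives a homogeneous set. -/
theorem family {α κ : Type*} [LinearOrder α] (c : List α → List α → κ) {m n : ℕ}
    (C : List Bool → List α) (k : κ) (hC : ∀ x : List Bool, x.length = n → (C x).length = m)
    (hlt : ∀ x y : List Bool, x.length = n → y.length = n → x < y → C x < C y)
    (hc : ∀ x y : List Bool, x.length = n → y.length = n → x < y → c (C x) (C y) = k) :
    ∃ S : Finset (List α), (∀ x ∈ S, x.length = m) ∧ S.card = 2 ^ n ∧
      ∃ k : κ, ∀ x ∈ S, ∀ y ∈ S, x < y → c x y = k := by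
  classical
  have hinj : ∀ x y : List Bool, x.length = n → y.length = n → C x = C y → x = y := by
    intro x y hx hy he
    rcases lt_trichotomy x y with h1 | h1 | h1
    · exact absurd he (hlt x y hx hy h1).ne
    · exact h1
    · exact absurd he (hlt y x hy hx h1).ne'
  have hinj' : Function.Injective (fun x : List.Vector Bool n => C x.toList) := fun x y h =>
    List.Vector.eq _ _ (hinj _ _ x.toList_length y.toList_length h)
  refine ⟨(Finset.univ : Finset (List.Vector Bool n)).image (fun x => C x.toList), ?_, ?_, k, ?_⟩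
  · intro X hX
    obtain ⟨x, _, rfl⟩ := Finset.mem_image.1 hX
    exact hC _ x.toList_length
  · rw [Finset.card_image_of_injective _ hinj', Finset.card_univ, card_vector, Fintype.card_bool]
  · intro X hX Y hY hXY
    obtain ⟨x, _, rfl⟩ := Finset.mem_image.1 hX
    obtain ⟨y, _, rfl⟩ := Finset.mem_image.1 hY
    have hx := x.toList_length
    have hy := y.toList_length
    generalize x.toList = x at hx hXY ⊢
    generalize y.toList = y at hy hXY ⊢
    have hxy : x < y := by
      rcases lt_trichotomy x y with h1 | h1 | h1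
      · exact h1
      · rw [h1] at hXY; exact absurd hXY (lt_irrefl _)
      · exact absurd (hlt y x hy hx h1) (lt_asymm hXY)
    exact hc x y hx hy hxy

/-- Homogeneous sets from the words `A` and `B`. -/
theorem upper_of {α Q κ : Type*} [LinearOrder α] (a₀ : α)
    (δ : Q → α → α → Q) (q₀ : Q) (g : Q → κ) (c : List α → List α → κ) {m n : ℕ}
    {A B : List α} {E F F' : (Function.End Q)ᵐᵒᵖ} (hAB : A < B) (hg : Good (lm δ) A B E F F')
    {p : ℕ} (hp0 : 1 ≤ p) (hpp : (F * F') ^ p * (F * F') ^ p = (F * F') ^ p)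
    (hLm : p * (4 * n * A.length) ≤ m)
    (hc : ∀ x y : List α, x.length = m → y.length = m → x < y → c x y = g (run δ q₀ x y)) :
    ∃ S : Finset (List α), (∀ x ∈ S, x.length = m) ∧ S.card = 2 ^ n ∧
      ∃ k : κ, ∀ x ∈ S, ∀ y ∈ S, x < y → c x y = k := by
  set L : ℕ := p * (4 * n * A.length) with hL
  set pad : List α := List.replicate (m - L) a₀ with hpad
  -- the code words
  have hlenZ : ∀ x : List Bool, x.length = n → (rep p (Z A B x)).length = L := by
    intro x hx
    rw [rep_length, Z_length hg.len, hx]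
  have hC : ∀ x : List Bool, x.length = n → (rep p (Z A B x) ++ pad).length = m := by
    intro x hx
    rw [List.length_append, hlenZ x hx, hpad, List.length_replicate]
    omega
  have hlt : ∀ x y : List Bool, x.length = n → y.length = n → x < y →
      rep p (Z A B x) ++ pad < rep p (Z A B y) ++ pad := by
    intro x y hx hy hxy
    refine append_lt_append (by rw [hlenZ x hx, hlenZ y hy]) ?_ _ _
    exact rep_lt_rep (by rw [Z_length hg.len, Z_length hg.len, hx, hy])
      (Z_lt hg.len hAB x y (hx.trans hy.symm) hxy) hp0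
  refine family c (fun x => rep p (Z A B x) ++ pad)
    (g (((F * F') ^ p * ph (lm δ) pad pad).unop q₀)) hC hlt ?_
  intro x y hx hy hxy
  show c (rep p (Z A B x) ++ pad) (rep p (Z A B y) ++ pad) = _
  rw [hc _ _ (hC x hx) (hC y hy) (hlt x y hx hy hxy), run_eq δ _ _ _ (by rw [hC x hx, hC y hy]),
    ph_append _ (by rw [hlenZ x hx, hlenZ y hy]), ph_rep_Z hg hpp (hx.trans hy.symm) hxy]

theorem card_M_lt {α Q : Type*} [Fintype α] (hα : 2 ≤ Fintype.card α) [Fintype Q]
    [Fintype (Function.End Q)ᵐᵒᵖ] {w : ℕ} (hw : Fintype.card Q ≤ w) (q₀ : Q) :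
    Fintype.card (Function.End Q)ᵐᵒᵖ < Fintype.card α ^ (w ^ 2 + 1) := by
  classical
  have h1 : Fintype.card (Function.End Q)ᵐᵒᵖ = Fintype.card (Q → Q) :=
    Fintype.card_congr ((opEquiv : Function.End Q ≃ (Function.End Q)ᵐᵒᵖ).symm.trans
      (Equiv.refl (Q → Q)))
  rw [h1]
  exact card_end_lt hw hα q₀

/-- **Large homogeneous sets.** -/
theorem upper {α Q κ : Type*} [Fintype α] [LinearOrder α] (hα : 2 ≤ Fintype.card α) [Fintype Q]
    {w : ℕ} (hw : Fintype.card Q ≤ w) (δ : Q → α → α → Q) (q₀ : Q) (g : Q → κ)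
    (c : List α → List α → κ) {m n : ℕ} (hm : K w * n ≤ m)
    (hc : ∀ x y : List α, x.length = m → y.length = m → x < y → c x y = g (run δ q₀ x y)) :
    ∃ S : Finset (List α), (∀ x ∈ S, x.length = m) ∧ S.card = 2 ^ n ∧
      ∃ k : κ, ∀ x ∈ S, ∀ y ∈ S, x < y → c x y = k := by
  classical
  have _ : Fintype (Function.End Q)ᵐᵒᵖ := Fintype.ofEquiv (Q → Q) opEquiv
  have hw1 : 1 ≤ w := (Fintype.card_pos_iff.2 ⟨q₀⟩).trans_le hw
  obtain ⟨A, B, E, F, F', hAB, hA, hg⟩ :=
    exists_good (lm δ) (T_pos hw1) (exists_pow_idem hw hw1) (card_M_lt hα hw q₀)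
  obtain ⟨p, hp0, hpR, hpp⟩ := exists_pow_idem hw hw1 (F * F')
  obtain ⟨a₀⟩ : Nonempty α := Fintype.card_pos_iff.1 (by omega)
  refine upper_of a₀ δ q₀ g c hAB hg hp0 hpp ?_ hc
  refine le_trans ?_ hm
  calc p * (4 * n * A.length) ≤ T w * (4 * n * (3 * T w ^ 4 * (w ^ 2 + 1))) :=
        Nat.mul_le_mul hpR (Nat.mul_le_mul_left _ hA)
    _ = K w * n := by unfold K; ring

/-- **Automata with few periods.** -/
theorem upper_periods {α Q κ : Type*} [Fintype α] [LinearOrder α] (hα : 2 ≤ Fintype.card α)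
    [Fintype Q] {w d : ℕ} (hd : 1 ≤ d) (hw : Fintype.card Q ≤ w) (δ : Q → α → α → Q)
    (hper : ∀ x y : List α, x.length = y.length → ∀ (q : Q) (n : ℕ), 1 ≤ n →
      (fun q => run δ q x y)^[n] q = q → (fun q => run δ q x y)^[d] q = q) (q₀ : Q) (g : Q → κ)
    (c : List α → List α → κ) {m n : ℕ} (hm : 12 * ((d * w) ^ 3 * (w ^ 2 + 1)) * n ≤ m)
    (hc : ∀ x y : List α, x.length = m → y.length = m → x < y → c x y = g (run δ q₀ x y)) :
    ∃ S : Finset (List α), (∀ x ∈ S, x.length = m) ∧ S.card = 2 ^ n ∧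
      ∃ k : κ, ∀ x ∈ S, ∀ y ∈ S, x < y → c x y = k := by
  classical
  have _ : Fintype (Function.End Q)ᵐᵒᵖ := Fintype.ofEquiv (Q → Q) opEquiv
  have hw1 : 1 ≤ w := (Fintype.card_pos_iff.2 ⟨q₀⟩).trans_le hw
  have hR : 1 ≤ d * w := Nat.mul_pos hd hw1
  have hexp : ∀ x y : List α, x.length = y.length →
      ph (lm δ) x y ^ (d * w) * ph (lm δ) x y ^ (d * w) = ph (lm δ) x y ^ (d * w) := by
    intro x y hxy
    refine pow_idem_of _ _ fun q => ?_
    have h1 : ((ph (lm δ) x y).unop : Q → Q) = fun q => run δ q x y := by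
      funext q
      exact (run_eq δ x y q hxy).symm
    rw [h1]
    exact iterate_idem hw hd _ (hper x y hxy) q
  obtain ⟨A, B, E, F, F', hAB, hA, hg⟩ := exists_good' (lm δ) hR hexp (card_M_lt hα hw q₀)
  have hFF : F * F' = ph (lm δ) (A ++ B) (B ++ A) := by
    rw [ph_append _ hg.len, hg.AB, hg.BA]
  have hpp := hexp (A ++ B) (B ++ A) (by simp only [List.length_append]; omega)
  rw [← hFF] at hpp
  obtain ⟨a₀⟩ : Nonempty α := Fintype.card_pos_iff.1 (by omega)
  refine upper_of a₀ δ q₀ g c hAB hg hR hpp ?_ hc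
  refine le_trans ?_ hm
  calc d * w * (4 * n * A.length) ≤ d * w * (4 * n * (3 * (d * w) ^ 2 * (w ^ 2 + 1))) :=
        Nat.mul_le_mul_left _ (Nat.mul_le_mul_left _ hA)
    _ = 12 * ((d * w) ^ 3 * (w ^ 2 + 1)) * n := by ring

/-! ### Reversible automata -/

theorem run_append {α Q : Type*} (δ : Q → α → α → Q) (x : List α) : ∀ (y : List α) (q : Q),
    x.length = y.length → ∀ x' y' : List α,
    run δ q (x ++ x') (y ++ y') = run δ (run δ q x y) x' y' := by
  induction x with
  | nil =>
    intro y q hl x' y'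
    cases y with
    | nil => rfl
    | cons b y => simp at hl
  | cons a x ih =>
    intro y q hl x' y'
    cases y with
    | nil => simp at hl
    | cons b y => exact ih y _ (by simpa using hl) x' y'

theorem run_replicate {α Q : Type*} (δ : Q → α → α → Q) (a b : α) (n : ℕ) : ∀ q : Q,
    run δ q (List.replicate n a) (List.replicate n b) = (fun q => δ q a b)^[n] q := by
  induction n with
  | zero => intro q; rfl
  | succ n ih => intro q; exact ih _

/-- the word of a sequence of bits -/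
def Y {α : Type*} (a b : α) (L : ℕ) : List Bool → List α
  | [] => []
  | i :: x => List.replicate L (if i then b else a) ++ Y a b L x

theorem Y_length {α : Type*} (a b : α) (L : ℕ) (x : List Bool) :
    (Y a b L x).length = L * x.length := by
  induction x with
  | nil => simp [Y]
  | cons i x ih => rw [Y, List.length_append, ih, List.length_replicate, List.length_cons]; ring

theorem replicate_lt {α : Type*} [LinearOrder α] {a b : α} (hab : a < b) {L : ℕ} (hL : 1 ≤ L) :
    List.replicate L a < List.replicate L b := by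
  obtain ⟨l, rfl⟩ : ∃ l, L = l + 1 := ⟨L - 1, by omega⟩
  rw [List.replicate_succ, List.replicate_succ, List.cons_lt_cons_iff]
  exact Or.inl hab

theorem Y_lt {α : Type*} [LinearOrder α] {a b : α} (hab : a < b) {L : ℕ} (hL : 1 ≤ L) :
    ∀ x y : List Bool, x.length = y.length → x < y → Y a b L x < Y a b L y := by
  intro x
  induction x with
  | nil =>
    intro y hxy h
    cases y with
    | nil => exact absurd h (lt_irrefl _)
    | cons b y => simp at hxy
  | cons i x ih =>
    intro y hxy h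
    cases y with
    | nil => simp at hxy
    | cons j y =>
      have hxy' : x.length = y.length := by simpa using hxy
      rw [List.cons_lt_cons_iff] at h
      rw [Y, Y]
      rcases h with h | ⟨h, h'⟩
      · have h1 : i = false ∧ j = true := by revert h; cases i <;> cases j <;> decide
        obtain ⟨rfl, rfl⟩ := h1
        refine append_lt_append (by simp) ?_ _ _
        simpa using replicate_lt hab hL
      · subst h
        exact append_left_lt' _ (ih y hxy' h')

/-- **Reversible automata.** -/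
theorem reversible {α Q κ : Type*} [Fintype α] [LinearOrder α] (hα : 2 ≤ Fintype.card α) [Fintype Q]
    {w : ℕ} (hw : Fintype.card Q ≤ w) (δ : Q → α → α → Q)
    (hδ : ∀ a b : α, Function.Injective fun q => δ q a b) (q₀ : Q) (g : Q → κ)
    (c : List α → List α → κ) {m n : ℕ} (hm : w ^ 4 * n ≤ m)
    (hc : ∀ x y : List α, x.length = m → y.length = m → x < y → c x y = g (run δ q₀ x y)) :
    ∃ S : Finset (List α), (∀ x ∈ S, x.length = m) ∧ S.card = 2 ^ n ∧
      ∃ k : κ, ∀ x ∈ S, ∀ y ∈ S, x < y → c x y = k := by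
  classical
  obtain ⟨a, b, hab⟩ : ∃ a b : α, a < b := by
    obtain ⟨a, b, h⟩ := Fintype.one_lt_card_iff.1 (show 1 < Fintype.card α by omega)
    rcases lt_or_gt_of_ne h with h | h
    · exact ⟨a, b, h⟩
    · exact ⟨b, a, h⟩
  -- the periods
  have hper : ∀ a b : α, ∃ l : ℕ, 1 ≤ l ∧ l ≤ w ∧ ∀ k : ℕ, (fun q => δ q a b)^[l * k] q₀ = q₀ := by
    intro a b
    have hc' : Fintype.card Q < Fintype.card (Fin (w + 1)) := by
      rw [Fintype.card_fin]; omega
    obtain ⟨i, j, hij, h⟩ := Fintype.exists_ne_map_eq_of_card_lt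
      (fun i : Fin (w + 1) => (fun q => δ q a b)^[i.1] q₀) hc'
    wlog hlt : i < j generalizing i j
    · exact this j i hij.symm h.symm (lt_of_le_of_ne (not_lt.1 hlt) hij.symm)
    refine ⟨j.1 - i.1, by have := Fin.lt_def.1 hlt; omega, by have := j.2; omega, ?_⟩
    have h1 : (fun q => δ q a b)^[j.1 - i.1] q₀ = q₀ := by
      have h2 : (fun q => δ q a b)^[i.1] ((fun q => δ q a b)^[j.1 - i.1] q₀) =
          (fun q => δ q a b)^[i.1] q₀ := by
        rw [← Function.iterate_add_apply]
        have h3 : i.1 + (j.1 - i.1) = j.1 := by have := Fin.lt_def.1 hlt; omega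
        rw [h3]
        exact h.symm
      exact (hδ a b).iterate i.1 h2
    intro k
    have h2 : Function.IsPeriodicPt (fun q => δ q a b) (j.1 - i.1) q₀ := h1
    exact h2.mul_const k
  obtain ⟨l₁, h11, h12, h13⟩ := hper a a
  obtain ⟨l₂, h21, h22, h23⟩ := hper a b
  obtain ⟨l₃, h31, h32, h33⟩ := hper b a
  obtain ⟨l₄, h41, h42, h43⟩ := hper b b
  set L : ℕ := l₁ * l₂ * l₃ * l₄ with hL
  have hL1 : 1 ≤ L := Nat.one_le_iff_ne_zero.2 (by positivity)
  have hLw : L ≤ w ^ 4 := by
    calc L ≤ w * w * w * w :=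
          Nat.mul_le_mul (Nat.mul_le_mul (Nat.mul_le_mul h12 h22) h32) h42
      _ = w ^ 4 := by ring
  have hblock : ∀ i j : Bool, run δ q₀ (List.replicate L (if i then b else a))
      (List.replicate L (if j then b else a)) = q₀ := by
    intro i j
    rw [run_replicate]
    cases i <;> cases j
    · have : L = l₁ * (l₂ * l₃ * l₄) := by rw [hL]; ring
      rw [this]; exact h13 _
    · have : L = l₂ * (l₁ * l₃ * l₄) := by rw [hL]; ring
      rw [this]; exact h23 _
    · have : L = l₃ * (l₁ * l₂ * l₄) := by rw [hL]; ring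
      rw [this]; exact h33 _
    · have : L = l₄ * (l₁ * l₂ * l₃) := by rw [hL]; ring
      rw [this]; exact h43 _
  have hY : ∀ x y : List Bool, x.length = y.length → run δ q₀ (Y a b L x) (Y a b L y) = q₀ := by
    intro x
    induction x with
    | nil =>
      intro y hl
      cases y with
      | nil => rfl
      | cons b y => simp at hl
    | cons i x ih =>
      intro y hl
      cases y with
      | nil => simp at hl
      | cons j y =>
        rw [Y, Y, run_append _ _ _ _ (by simp), hblock]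
        exact ih y (by simpa using hl)
  set pad : List α := List.replicate (m - L * n) a with hpad
  have hLn : L * n ≤ m := (Nat.mul_le_mul_right n hLw).trans hm
  have hC : ∀ x : List Bool, x.length = n → (Y a b L x ++ pad).length = m := by
    intro x hx
    rw [List.length_append, Y_length, hx, hpad, List.length_replicate]
    omega
  have hlt : ∀ x y : List Bool, x.length = n → y.length = n → x < y →
      Y a b L x ++ pad < Y a b L y ++ pad := fun x y hx hy hxy =>
    append_lt_append (by rw [Y_length, Y_length, hx, hy]) (Y_lt hab hL1 x y (hx.trans hy.symm) hxy)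
      _ _
  refine family c (fun x => Y a b L x ++ pad) (g (run δ q₀ pad pad)) hC hlt ?_
  intro x y hx hy hxy
  show c (Y a b L x ++ pad) (Y a b L y ++ pad) = _
  rw [hc _ _ (hC x hx) (hC y hy) (hlt x y hx hy hxy),
    run_append _ _ _ _ (by rw [Y_length, Y_length, hx, hy]), hY x y (hx.trans hy.symm)]

end Pool.Agent.U215.AC
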