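import Mathlib

/-!
# Words, products along pairs of words, and exponents of transformations
-/

set_option autoImplicit false

namespace Pool.Agent.U215.AC

section words

variable {α M : Type*} [Monoid M]

/-- the product of the `h a b` along a pair of words -/
def ph (h : α → α → M) (x y : List α) : M := (List.zipWith h x y).prod

@[simp] theorem ph_nil (h : α → α → M) : ph h [] [] = 1 := rfl

theorem ph_append (h : α → α → M) {x y : List α} (hl : x.length = y.length) (x' y' : List α) :
    ph h (x ++ x') (y ++ y') = ph h x y * ph h x' y' := by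
  unfold ph
  rw [List.zipWith_append hl, List.prod_append]

/-- the word `x` repeated `p` times -/
def rep (p : ℕ) (x : List α) : List α := (List.replicate p x).flatten

@[simp] theorem rep_zero (x : List α) : rep 0 x = [] := rfl

theorem rep_succ (p : ℕ) (x : List α) : rep (p + 1) x = x ++ rep p x := by
  unfold rep
  rw [List.replicate_succ, List.flatten_cons]

theorem rep_length (p : ℕ) (x : List α) : (rep p x).length = p * x.length := by
  induction p with
  | zero => simp
  | succ p ih => rw [rep_succ, List.length_append, ih]; ring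

theorem ph_rep (h : α → α → M) {x y : List α} (hl : x.length = y.length) (p : ℕ) :
    ph h (rep p x) (rep p y) = ph h x y ^ p := by
  induction p with
  | zero => simp
  | succ p ih => rw [rep_succ, rep_succ, ph_append h hl, ih, pow_succ']

end words

/-! ### Idempotent powers -/

/-- distinct positive integers have a large sum -/
theorem card_sq_le_sum (D : Finset ℕ) : (∀ d ∈ D, 1 ≤ d) →
    D.card * (D.card + 1) ≤ 2 * ∑ d ∈ D, d := by
  induction D using Finset.induction_on_max with
  | empty => intro _; simp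
  | insert a s hs ih =>
    intro h1
    have ha : a ∉ s := fun h => lt_irrefl _ (hs a h)
    have hi := ih fun d hd => h1 d (Finset.mem_insert_of_mem hd)
    rw [Finset.card_insert_of_notMem ha, Finset.sum_insert ha]
    have hsub : insert a s ⊆ Finset.Icc 1 a := by
      intro d hd
      rw [Finset.mem_Icc]
      refine ⟨h1 d hd, ?_⟩
      rcases Finset.mem_insert.1 hd with h | h
      · exact h.le
      · exact (hs d h).le
    have hc := Finset.card_le_card hsub
    rw [Finset.card_insert_of_notMem ha, Nat.card_Icc, Nat.add_sub_cancel] at hc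
    nlinarith

/-- the bound for the exponents -/
def T (w : ℕ) : ℕ := w ^ (Nat.sqrt (2 * w) + 1)

theorem T_pos {w : ℕ} (hw : 1 ≤ w) : 1 ≤ T w := Nat.one_le_pow _ _ hw

/-- The `w`-th iterate of a transformation of a set with at most `w` elements maps to periodic
points. -/
theorem mem_periodicPts {Q : Type*} [Fintype Q] {w : ℕ} (hw : Fintype.card Q ≤ w) (f : Q → Q)
    (q : Q) : f^[w] q ∈ Function.periodicPts f := by
  classical
  obtain ⟨i, j, hij, hj, he⟩ : ∃ i j : ℕ, i < j ∧ j ≤ w ∧ f^[i] q = f^[j] q := by
    have hc : Fintype.card Q < Fintype.card (Fin (w + 1)) := by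
      rw [Fintype.card_fin]; omega
    obtain ⟨a, b, hab, h⟩ := Fintype.exists_ne_map_eq_of_card_lt
      (fun i : Fin (w + 1) => f^[i.1] q) hc
    rcases lt_or_gt_of_ne (fun h' => hab (Fin.ext h')) with h1 | h1
    · exact ⟨a, b, h1, by omega, h⟩
    · exact ⟨b, a, h1, by omega, h.symm⟩
  have hper : Function.IsPeriodicPt f (j - i) (f^[i] q) := by
    show f^[j - i] (f^[i] q) = f^[i] q
    rw [← Function.iterate_add_apply, Nat.sub_add_cancel hij.le, he]
  obtain ⟨s, hs⟩ := Nat.exists_eq_add_of_le' (show i ≤ w by omega)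
  rw [hs, Function.iterate_add_apply]
  exact ⟨j - i, by omega, hper.apply_iterate s⟩

/-- If the lengths of all cycles divide `d`, then the `d w`-th power is idempotent. -/
theorem iterate_idem {Q : Type*} [Fintype Q] {w d : ℕ} (hw : Fintype.card Q ≤ w) (hd : 1 ≤ d)
    (f : Q → Q) (hf : ∀ (q : Q) (n : ℕ), 1 ≤ n → f^[n] q = q → f^[d] q = q) (q : Q) :
    f^[d * w] (f^[d * w] q) = f^[d * w] q := by
  have hwp : w ≤ d * w := Nat.le_mul_of_pos_left _ hd
  obtain ⟨s, hs⟩ := Nat.exists_eq_add_of_le' hwp
  have hy : f^[d * w] q ∈ Function.periodicPts f := by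
    rw [hs, Function.iterate_add_apply]
    obtain ⟨k, hk, hk'⟩ := mem_periodicPts hw f q
    exact ⟨k, hk, hk'.apply_iterate s⟩
  obtain ⟨k, hk, hk'⟩ := hy
  have h1 : Function.IsPeriodicPt f d (f^[d * w] q) := hf _ k hk hk'
  exact h1.mul_const w

/-- **Landau's bound.** Every transformation of a set with at most `w` elements has an idempotent
power whose exponent is at most `w ^ (⌊√(2 w)⌋ + 1)`. -/
theorem exists_exponent {Q : Type*} [Fintype Q] {w : ℕ} (hw : Fintype.card Q ≤ w) (hw1 : 1 ≤ w)
    (f : Q → Q) : ∃ p : ℕ, 1 ≤ p ∧ p ≤ T w ∧ ∀ q, f^[p] (f^[p] q) = f^[p] q := by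
  classical
  have hper : ∀ q : Q, f^[w] q ∈ Function.periodicPts f := mem_periodicPts hw f
  set P : Finset Q := Finset.univ.filter fun x => x ∈ Function.periodicPts f with hP
  set D : Finset ℕ := P.image (Function.minimalPeriod f) with hD
  have hmemP : ∀ x : Q, x ∈ P ↔ x ∈ Function.periodicPts f := fun x => by
    rw [hP, Finset.mem_filter]; simp
  have hDpos : ∀ d ∈ D, 1 ≤ d := by
    intro d hd
    obtain ⟨x, hx, rfl⟩ := Finset.mem_image.1 hd
    exact Function.minimalPeriod_pos_of_mem_periodicPts ((hmemP x).1 hx)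
  -- the sum of the distinct periods
  have hsum : ∑ d ∈ D, d ≤ w := by
    have h1 : ∀ d ∈ D, d ≤ (P.filter fun x => Function.minimalPeriod f x = d).card := by
      intro d hd
      obtain ⟨x, hx, rfl⟩ := Finset.mem_image.1 hd
      have hx' := (hmemP x).1 hx
      have hinj : Set.InjOn (fun n => f^[n] x)
          ((Finset.range (Function.minimalPeriod f x) : Finset ℕ) : Set ℕ) := by
        intro a ha b hb hab
        have ha' : a < Function.minimalPeriod f x := Finset.mem_range.1 (Finset.mem_coe.1 ha)
        have hb' : b < Function.minimalPeriod f x := Finset.mem_range.1 (Finset.mem_coe.1 hb)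
        exact Function.iterate_injOn_Iio_minimalPeriod ha' hb' hab
      calc Function.minimalPeriod f x
          = (Finset.range (Function.minimalPeriod f x)).card := (Finset.card_range _).symm
        _ = ((Finset.range (Function.minimalPeriod f x)).image fun n => f^[n] x).card :=
          (Finset.card_image_of_injOn hinj).symm
        _ ≤ _ := by
          refine Finset.card_le_card ?_
          intro y hy
          obtain ⟨n, _, rfl⟩ := Finset.mem_image.1 hy
          rw [Finset.mem_filter, hmemP]
          exact ⟨by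
            obtain ⟨k, hk, hk'⟩ := hx'
            exact ⟨k, hk, hk'.apply_iterate n⟩, Function.minimalPeriod_apply_iterate hx' n⟩
    calc ∑ d ∈ D, d ≤ ∑ d ∈ D, (P.filter fun x => Function.minimalPeriod f x = d).card :=
          Finset.sum_le_sum h1
      _ = P.card := (Finset.card_eq_sum_card_image (Function.minimalPeriod f) P).symm
      _ ≤ Fintype.card Q := Finset.card_le_univ _
      _ ≤ w := hw
  have hcard : D.card ≤ Nat.sqrt (2 * w) := by
    rw [Nat.le_sqrt]
    have := card_sq_le_sum D hDpos
    nlinarith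
  have hprod1 : 1 ≤ ∏ d ∈ D, d :=
    Nat.succ_le_of_lt (Finset.prod_pos fun d hd => Nat.lt_of_succ_le (hDpos d hd))
  have hprod : ∏ d ∈ D, d ≤ w ^ Nat.sqrt (2 * w) := by
    calc ∏ d ∈ D, d ≤ w ^ D.card := by
          refine Finset.prod_le_pow_card _ _ _ fun d hd => ?_
          exact (Finset.single_le_sum (f := fun d : ℕ => d) (fun _ _ => Nat.zero_le _) hd).trans hsum
      _ ≤ w ^ Nat.sqrt (2 * w) := Nat.pow_le_pow_right hw1 hcard
  refine ⟨(∏ d ∈ D, d) * w, ?_, ?_, ?_⟩
  · exact Nat.mul_pos hprod1 hw1
  · unfold T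
    rw [pow_succ]
    exact Nat.mul_le_mul_right _ hprod
  · intro q
    set p := (∏ d ∈ D, d) * w with hp
    have hwp : w ≤ p := by rw [hp]; exact Nat.le_mul_of_pos_left _ hprod1
    obtain ⟨s, hs⟩ := Nat.exists_eq_add_of_le' hwp
    have hy : f^[p] q ∈ Function.periodicPts f := by
      rw [hs, Function.iterate_add_apply]
      obtain ⟨k, hk, hk'⟩ := hper q
      exact ⟨k, hk, hk'.apply_iterate s⟩
    set y := f^[p] q with hydef
    have hd : Function.minimalPeriod f y ∈ D := Finset.mem_image_of_mem _ ((hmemP y).2 hy)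
    have hdvd : Function.minimalPeriod f y ∣ p :=
      (Finset.dvd_prod_of_mem (fun d : ℕ => d) hd).trans (Dvd.intro _ hp.symm)
    exact (Function.isPeriodicPt_minimalPeriod f y).trans_dvd hdvd

theorem end_pow {Q : Type*} (f : Function.End Q) (k : ℕ) : (f ^ k : Function.End Q) = f^[k] := by
  induction k with
  | zero => rfl
  | succ k ih =>
    rw [pow_succ, ih]
    rfl

theorem pow_idem_of {Q : Type*} (t : (Function.End Q)ᵐᵒᵖ) (p : ℕ)
    (h : ∀ q, (t.unop)^[p] ((t.unop)^[p] q) = (t.unop)^[p] q) : t ^ p * t ^ p = t ^ p := by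
  induction t using MulOpposite.rec' with
  | h f =>
    rw [← MulOpposite.op_pow, ← MulOpposite.op_mul]
    congr 1
    funext q
    rw [end_pow]
    exact h q

theorem exists_pow_idem {Q : Type*} [Fintype Q] {w : ℕ} (hw : Fintype.card Q ≤ w) (hw1 : 1 ≤ w)
    (t : (Function.End Q)ᵐᵒᵖ) : ∃ p : ℕ, 1 ≤ p ∧ p ≤ T w ∧ t ^ p * t ^ p = t ^ p := by
  obtain ⟨p, h1, h2, h3⟩ := exists_exponent hw hw1 t.unop
  exact ⟨p, h1, h2, pow_idem_of t p h3⟩

end Pool.Agent.U215.AC
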